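import Pool.Agent.Q261.FermatGrp

/-!
# Quotient groups of algebraic power series with the Fermat property

The definitions: `IsAlg`, `IsRat`, `HasFermat` (in `Pool.Agent.Q261.FermatDefs`) and the subgroups
`F`, `D`, `P`, `Zx`, `Rt` of `ℤ⟦X⟧` (in `Pool.Agent.Q261.FermatGrp`).
-/

set_option autoImplicit false

namespace Pool.Agent.Results.MP_762bfd_nt.FermatQuotients

open PowerSeries Q261.Fermat

/-- **Main result**: `D + ℤ[x] + P` is contained in `F`; the quotient `F / (D + ℤ[x] + P)` and the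
group `𝔓_∅ = F_∅ / (D_∅ + ℤ[x] + P_∅)` (where the subscript `∅` means intersection with `ℚ(x)`)
are both isomorphic to a direct sum of countably many copies of `ℚ`. -/
theorem result :
    D ⊔ Zx ⊔ P ≤ F ∧
    Nonempty ((F ⧸ (D ⊔ Zx ⊔ P).addSubgroupOf F) ≃+ (ℕ →₀ ℚ)) ∧
    Nonempty (((F ⊓ Rt : AddSubgroup ℤ⟦X⟧) ⧸ ((D ⊓ Rt) ⊔ Zx ⊔ (P ⊓ Rt)).addSubgroupOf (F ⊓ Rt)) ≃+
      (ℕ →₀ ℚ)) := by
  refine ⟨sum_le_F, ?_, structure_thm stable_Rt le_rfl⟩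
  have key : ∀ (A B : AddSubgroup ℤ⟦X⟧), A = F → B = D ⊔ Zx ⊔ P →
      Nonempty ((A ⧸ B.addSubgroupOf A) ≃+ (ℕ →₀ ℚ)) →
      Nonempty ((F ⧸ (D ⊔ Zx ⊔ P).addSubgroupOf F) ≃+ (ℕ →₀ ℚ)) := by
    rintro _ _ rfl rfl h
    exact h
  refine key (F ⊓ ⊤) _ (inf_top_eq F) ?_ (structure_thm (C := ⊤) stable_top le_top)
  rw [Q261.Fermat.Sub, inf_top_eq, inf_top_eq]

end Pool.Agent.Results.MP_762bfd_nt.FermatQuotients
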